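import Mathlib

set_option autoImplicit false

/-!
Topological non-planarity of the complete bipartite graph with three plus three vertices,
for continuous (not necessarily injective) edge paths, by a parity argument with continuous
logarithms.
-/

namespace Pool.Agent.H60.K33

open Complex

/-- A continuous nonvanishing complex function on the plane has a continuous logarithm. -/
theorem exists_log₂ (F : ℝ × ℝ → ℂ) (hF : Continuous F) (h0 : ∀ x, F x ≠ 0) :
    ∃ G : ℝ × ℝ → ℂ, Continuous G ∧ ∀ x, exp (G x) = F x := by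
  have cov := Complex.isCoveringMap_exp
  let f : C(ℝ × ℝ, {z : ℂ // z ≠ 0}) := ⟨fun x => ⟨F x, h0 x⟩, by fun_prop⟩
  obtain ⟨G, ⟨-, hG⟩, -⟩ := cov.existsUnique_continuousMap_lifts f (0, 0) (Complex.log (F (0, 0)))
    (by apply Subtype.ext; simp [f, Complex.exp_log (h0 (0, 0))])
  refine ⟨G, G.continuous, fun x => ?_⟩
  have := congrFun hG x
  exact congrArg Subtype.val this

/-- A continuous nonvanishing complex function on the line has a continuous logarithm. -/
theorem exists_log₁ (u : ℝ → ℂ) (hu : Continuous u) (h0 : ∀ x, u x ≠ 0) :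
    ∃ g : ℝ → ℂ, Continuous g ∧ ∀ x, exp (g x) = u x := by
  obtain ⟨G, hG, hG'⟩ := exists_log₂ (fun x => u x.1) (by fun_prop) (fun x => h0 _)
  exact ⟨fun t => G (t, 0), by fun_prop, fun x => hG' (x, 0)⟩

/-- Two continuous logarithms of the same function have the same increment. -/
theorem increment_eq (g g' : ℝ → ℂ) (hg : Continuous g) (hg' : Continuous g')
    (h : ∀ x, exp (g x) = exp (g' x)) : g 1 - g 0 = g' 1 - g' 0 := by
  have key : ∀ x, ∃ n : ℤ, g x = g' x + n * (2 * Real.pi * I) := fun x =>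
    Complex.exp_eq_exp_iff_exists_int.mp (h x)
  choose n hn using key
  have hcont : Continuous (fun x => (n x : ℝ)) := by
    have : (fun x => (n x : ℝ)) = fun x => ((g x - g' x) / (2 * Real.pi * I)).re := by
      funext x
      have h2 : (2 * (Real.pi : ℂ) * I) ≠ 0 := by
        simp [Real.pi_ne_zero]
      rw [hn x, add_sub_cancel_left, mul_div_cancel_right₀ _ h2]
      simp
    rw [this]
    fun_prop
  have hn_cont : Continuous n := by
    have : Topology.IsClosedEmbedding ((↑) : ℤ → ℝ) := Int.isClosedEmbedding_coe_real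
    exact this.isEmbedding.continuous_iff.mpr hcont
  have hconst : n 1 = n 0 := by
    have := PreconnectedSpace.constant (inferInstance : PreconnectedSpace ℝ) hn_cont (x := 1) (y := 0)
    exact this
  rw [hn 1, hn 0, hconst]
  ring

open Classical in
/-- The increment over `[0,1]` of a continuous logarithm of `u`. -/
noncomputable def D (u : ℝ → ℂ) : ℂ :=
  if h : ∃ g : ℝ → ℂ, Continuous g ∧ ∀ x, exp (g x) = u x then h.choose 1 - h.choose 0 else 0

theorem D_eq {u g : ℝ → ℂ} (hg : Continuous g) (h : ∀ x, exp (g x) = u x) :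
    D u = g 1 - g 0 := by
  have hex : ∃ g : ℝ → ℂ, Continuous g ∧ ∀ x, exp (g x) = u x := ⟨g, hg, h⟩
  rw [D, dif_pos hex]
  exact increment_eq _ _ hex.choose_spec.1 hg (fun x => by rw [hex.choose_spec.2 x, h x])

theorem D_neg {u : ℝ → ℂ} (hu : Continuous u) (h0 : ∀ x, u x ≠ 0) :
    D (fun x => - u x) = D u := by
  obtain ⟨g, hg, h⟩ := exists_log₁ u hu h0
  rw [D_eq hg h, D_eq (g := fun x => g x + Real.pi * I) (by fun_prop)
    (fun x => by rw [Complex.exp_add, h x, Complex.exp_pi_mul_I]; ring)]
  ring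

theorem exp_D {u : ℝ → ℂ} (hu : Continuous u) (h0 : ∀ x, u x ≠ 0) :
    exp (D u) = u 1 / u 0 := by
  obtain ⟨g, hg, h⟩ := exists_log₁ u hu h0
  rw [D_eq hg h, Complex.exp_sub, h, h]

/-- Going around the unit square. -/
theorem D_square (F : ℝ × ℝ → ℂ) (hF : Continuous F) (h0 : ∀ x, F x ≠ 0) :
    D (fun s => F (s, 0)) + D (fun t => F (1, t)) = D (fun t => F (0, t)) + D (fun s => F (s, 1)) := by
  obtain ⟨G, hG, hG'⟩ := exists_log₂ F hF h0
  rw [D_eq (g := fun s => G (s, 0)) (by fun_prop) (fun x => hG' _),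
    D_eq (g := fun t => G (1, t)) (by fun_prop) (fun x => hG' _),
    D_eq (g := fun t => G (0, t)) (by fun_prop) (fun x => hG' _),
    D_eq (g := fun s => G (s, 1)) (by fun_prop) (fun x => hG' _)]
  ring

/-- **Non-planarity of `K₃,₃`**, for continuous edge paths: there are no points `P i`, `Q j` in the
plane and paths `γ i j` from `P i` to `Q j` such that paths with disjoint index pairs are
disjoint. -/
theorem nonplanar (P Q : Fin 3 → ℂ) (γ : Fin 3 → Fin 3 → ℝ → ℂ)
    (hγ : ∀ i j, Continuous (γ i j)) (h0 : ∀ i j, γ i j 0 = P i) (h1 : ∀ i j, γ i j 1 = Q j)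
    (hdisj : ∀ i j k l, i ≠ k → j ≠ l → ∀ s t, γ i j s ≠ γ k l t) : False := by
  -- choose logarithms of the differences of the vertices
  have hPP : ∀ i k, i ≠ k → P i - P k ≠ 0 := by
    intro i k hik
    have hjl : (0 : Fin 3) ≠ 1 := by decide
    have := hdisj i 0 k 1 hik hjl 0 0
    rw [h0, h0] at this
    exact sub_ne_zero.mpr this
  have hQQ : ∀ j l, j ≠ l → Q j - Q l ≠ 0 := by
    intro j l hjl
    have hik : (0 : Fin 3) ≠ 1 := by decide
    have := hdisj 0 j 1 l hik hjl 1 1
    rw [h1, h1] at this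
    exact sub_ne_zero.mpr this
  have hex : ∀ j : Fin 3, ∃ l : Fin 3, l ≠ j := by decide
  have hγP : ∀ i j k, i ≠ k → ∀ s, γ i j s - P k ≠ 0 := by
    intro i j k hik s
    obtain ⟨l, hl⟩ := hex j
    have := hdisj i j k l hik hl.symm s 0
    rw [h0] at this
    exact sub_ne_zero.mpr this
  have hγQ : ∀ i j l, j ≠ l → ∀ s, γ i j s - Q l ≠ 0 := by
    intro i j l hjl s
    obtain ⟨k, hk⟩ := hex i
    have := hdisj i j k l hk.symm hjl s 1
    rw [h1] at this
    exact sub_ne_zero.mpr this
  have hQP : ∀ j k, Q j - P k ≠ 0 := by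
    intro j k
    obtain ⟨i, hi⟩ := hex k
    have := hγP i j k hi 1
    rwa [h1] at this
  let X : Fin 3 → Fin 3 → ℂ := fun j k => Complex.log (Q j - P k)
  have hX : ∀ j k, exp (X j k) = Q j - P k := fun j k => Complex.exp_log (hQP j k)
  let Y : Fin 3 → Fin 3 → ℂ := fun i k =>
    if i < k then Complex.log (P i - P k) else Complex.log (P k - P i) + Real.pi * I
  have hY : ∀ i k, i ≠ k → exp (Y i k) = P i - P k := by
    intro i k hik
    simp only [Y]
    split_ifs with h
    · exact Complex.exp_log (hPP i k hik)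
    · rw [Complex.exp_add, Complex.exp_log (hPP k i hik.symm), Complex.exp_pi_mul_I]; ring
  let Z : Fin 3 → Fin 3 → ℂ := fun i k =>
    if i < k then Complex.log (Q i - Q k) else Complex.log (Q k - Q i) + Real.pi * I
  have hZ : ∀ i k, i ≠ k → exp (Z i k) = Q i - Q k := by
    intro i k hik
    simp only [Z]
    split_ifs with h
    · exact Complex.exp_log (hQQ i k hik)
    · rw [Complex.exp_add, Complex.exp_log (hQQ k i hik.symm), Complex.exp_pi_mul_I]; ring
  -- the increments
  have ha : ∀ i j k, i ≠ k → ∃ n : ℤ,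
      D (fun s => γ i j s - P k) = X j k - Y i k + n * (2 * Real.pi * I) := by
    intro i j k hik
    apply Complex.exp_eq_exp_iff_exists_int.mp
    have hc := hγ i j
    rw [exp_D (by fun_prop) (hγP i j k hik), Complex.exp_sub, hX, hY i k hik, h0, h1]
  have hb : ∀ i j l, j ≠ l → ∃ m : ℤ,
      D (fun s => γ i j s - Q l) = Z j l - (X l i + Real.pi * I) + m * (2 * Real.pi * I) := by
    intro i j l hjl
    apply Complex.exp_eq_exp_iff_exists_int.mp
    have hc := hγ i j
    rw [exp_D (by fun_prop) (hγQ i j l hjl), Complex.exp_sub, Complex.exp_add, hX, hZ j l hjl, h0,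
      h1, Complex.exp_pi_mul_I]
    congr 1
    ring
  have ha' : ∀ i j k, ∃ n : ℤ, i ≠ k →
      D (fun s => γ i j s - P k) = X j k - Y i k + n * (2 * Real.pi * I) := by
    intro i j k
    by_cases h : i ≠ k
    · obtain ⟨n, hn⟩ := ha i j k h
      exact ⟨n, fun _ => hn⟩
    · exact ⟨0, fun h' => absurd h' h⟩
  have hb' : ∀ i j l, ∃ m : ℤ, j ≠ l →
      D (fun s => γ i j s - Q l) = Z j l - (X l i + Real.pi * I) + m * (2 * Real.pi * I) := by
    intro i j l
    by_cases h : j ≠ l
    · obtain ⟨n, hn⟩ := hb i j l h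
      exact ⟨n, fun _ => hn⟩
    · exact ⟨0, fun h' => absurd h' h⟩
  choose n hn using ha'
  choose m hm using hb'
  -- the relation coming from the square
  have hrel : ∀ i j k l, i ≠ k → j ≠ l →
      D (fun s => γ i j s - P k) + D (fun t => γ k l t - Q j) =
      D (fun t => γ k l t - P i) + D (fun s => γ i j s - Q l) := by
    intro i j k l hik hjl
    have hc := hγ i j
    have hc' := hγ k l
    have := D_square (fun x => γ i j x.1 - γ k l x.2) (by fun_prop)
      (fun x => sub_ne_zero.mpr (hdisj i j k l hik hjl _ _))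
    simp only [h0, h1] at this
    have e1 : D (fun t => Q j - γ k l t) = D (fun t => γ k l t - Q j) := by
      rw [← D_neg (by fun_prop) (hγQ k l j hjl.symm)]
      congr 1
      funext t
      ring
    have e2 : D (fun t => P i - γ k l t) = D (fun t => γ k l t - P i) := by
      rw [← D_neg (by fun_prop) (hγP k l i hik.symm)]
      congr 1
      funext t
      ring
    rw [e1, e2] at this
    exact this
  have hrel2 : ∀ i j k l, i < k → j < l →
      1 = n k l i + m i j l - n i j k - m k l j := by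
    intro i j k l hik hjl
    have h := hrel i j k l hik.ne hjl.ne
    rw [hn i j k hik.ne, hn k l i hik.ne', hm i j l hjl.ne, hm k l j hjl.ne'] at h
    have hY' : Y k i = Y i k + Real.pi * I := by
      simp only [Y, hik, hik.not_gt, if_true, if_false]
    have hZ' : Z l j = Z j l + Real.pi * I := by
      simp only [Z, hjl, hjl.not_gt, if_true, if_false]
    rw [hY', hZ'] at h
    have hpi : ((Real.pi : ℂ) * I) ≠ 0 := by simp [Real.pi_ne_zero]
    have h2 : (((n k l i + m i j l - n i j k - m k l j : ℤ) : ℂ) - 1) * (2 * (Real.pi * I)) = 0 := by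
      push_cast
      linear_combination -h
    rcases mul_eq_zero.mp h2 with h3 | h3
    · have h4 : ((n k l i + m i j l - n i j k - m k l j : ℤ) : ℂ) = ((1 : ℤ) : ℂ) := by
        rw [sub_eq_zero] at h3
        rw [h3]; simp
      exact (Int.cast_injective h4).symm
    · exfalso; simp [Real.pi_ne_zero] at h3
  have hrel3 : ∀ i j k l, i < k → l < j →
      0 = n k l i + m i j l - n i j k - m k l j := by
    intro i j k l hik hjl
    have h := hrel i j k l hik.ne hjl.ne'
    rw [hn i j k hik.ne, hn k l i hik.ne', hm i j l hjl.ne', hm k l j hjl.ne] at h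
    have hY' : Y k i = Y i k + Real.pi * I := by
      simp only [Y, hik, hik.not_gt, if_true, if_false]
    have hZ' : Z j l = Z l j + Real.pi * I := by
      simp only [Z, hjl, hjl.not_gt, if_true, if_false]
    rw [hY', hZ'] at h
    have h2 : (((n k l i + m i j l - n i j k - m k l j : ℤ) : ℂ)) * (2 * (Real.pi * I)) = 0 := by
      push_cast
      linear_combination -h
    rcases mul_eq_zero.mp h2 with h3 | h3
    · have h4 : ((n k l i + m i j l - n i j k - m k l j : ℤ) : ℂ) = ((0 : ℤ) : ℂ) := by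
        rw [h3]; simp
      exact (Int.cast_injective h4).symm
    · exfalso; simp [Real.pi_ne_zero] at h3
  have l01 : (0 : Fin 3) < 1 := by decide
  have l02 : (0 : Fin 3) < 2 := by decide
  have l12 : (1 : Fin 3) < 2 := by decide
  have A1 := hrel2 0 0 1 1 l01 l01
  have A2 := hrel2 0 0 1 2 l01 l02
  have A3 := hrel2 0 1 1 2 l01 l12
  have A4 := hrel2 0 0 2 1 l02 l01
  have A5 := hrel2 0 0 2 2 l02 l02
  have A6 := hrel2 0 1 2 2 l02 l12
  have A7 := hrel2 1 0 2 1 l12 l01
  have A8 := hrel2 1 0 2 2 l12 l02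
  have A9 := hrel2 1 1 2 2 l12 l12
  have B1 := hrel3 0 1 1 0 l01 l01
  have B2 := hrel3 0 2 1 0 l01 l02
  have B3 := hrel3 0 2 1 1 l01 l12
  have B4 := hrel3 0 1 2 0 l02 l01
  have B5 := hrel3 0 2 2 0 l02 l02
  have B6 := hrel3 0 2 2 1 l02 l12
  have B7 := hrel3 1 1 2 0 l12 l01
  have B8 := hrel3 1 2 2 0 l12 l02
  have B9 := hrel3 1 2 2 1 l12 l12
  omega

end Pool.Agent.H60.K33
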