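import Mathlib
import Pool.Agent.H60.K33

set_option autoImplicit false

/-!
The complete bipartite graph on three plus three vertices as a subspace of `ℝ³ × ℝ³`
(the join of two three-point sets), and its basic topological properties.
-/

namespace Pool.Agent.H60.K33

open Set Topology

/-- Point with parameter `t` on the edge joining the vertex `p_i` to the vertex `q_j`. -/
def pt (i j : Fin 3) (t : ℝ) : (Fin 3 → ℝ) × (Fin 3 → ℝ) :=
  (Pi.single i (1 - t), Pi.single j t)

/-- Parametrisation of the graph by nine copies of the unit interval. -/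
def phi (x : (Fin 3 × Fin 3) × unitInterval) : (Fin 3 → ℝ) × (Fin 3 → ℝ) :=
  pt x.1.1 x.1.2 x.2

theorem continuous_pt (i j : Fin 3) : Continuous (pt i j) := by
  unfold pt
  have h2 : ∀ k : Fin 3, Continuous fun t : ℝ => (Pi.single k t : Fin 3 → ℝ) := fun k =>
    continuous_single (A := fun _ : Fin 3 => ℝ) k
  exact ((h2 i).comp (by fun_prop : Continuous fun t : ℝ => 1 - t)).prodMk (h2 j)

theorem continuous_phi : Continuous phi := by
  rw [continuous_prod_of_discrete_left]
  intro a
  exact (continuous_pt a.1 a.2).comp continuous_subtype_val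

/-- The space `K₃,₃`. -/
abbrev Y : Type := ↥(Set.range phi)

theorem pt_mem (i j : Fin 3) (t : ℝ) (h0 : 0 ≤ t) (h1 : t ≤ 1) : pt i j t ∈ Set.range phi :=
  ⟨((i, j), ⟨t, h0, h1⟩), rfl⟩

theorem exists_pt (y : Y) : ∃ i j t, 0 ≤ t ∧ t ≤ 1 ∧ y.1 = pt i j t := by
  obtain ⟨y, ⟨⟨i, j⟩, t⟩, rfl⟩ := y
  exact ⟨i, j, t, t.2.1, t.2.2, rfl⟩

instance : CompactSpace Y := isCompact_iff_compactSpace.mp (isCompact_range continuous_phi)

/-- The parametrisation, with values in the graph. -/
def Phi (x : (Fin 3 × Fin 3) × unitInterval) : Y := ⟨phi x, x, rfl⟩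

theorem continuous_Phi : Continuous Phi := continuous_phi.subtype_mk _

theorem surjective_Phi : Function.Surjective Phi := by
  rintro ⟨y, x, rfl⟩
  exact ⟨x, rfl⟩

instance : LocallyConnectedSpace Y := by
  have : LocallyPathConnectedSpace unitInterval := (convex_Icc (0:ℝ) 1).locallyPathConnectedSpace
  have : LocallyPathConnectedSpace Y :=
    (continuous_Phi.isClosedMap.isQuotientMap continuous_Phi
      surjective_Phi).locallyPathConnectedSpace
  infer_instance

/-- The closed edge with indices `i`, `j`. -/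
def E (i j : Fin 3) : Set Y := Set.range (fun t : unitInterval => Phi ((i, j), t))

theorem continuous_edge (i j : Fin 3) : Continuous (fun t : unitInterval => Phi ((i, j), t)) :=
  continuous_Phi.comp (by fun_prop)

theorem E_compact (i j : Fin 3) : IsCompact (E i j) := isCompact_range (continuous_edge i j)

theorem E_closed (i j : Fin 3) : IsClosed (E i j) := (E_compact i j).isClosed

theorem E_connected (i j : Fin 3) : IsConnected (E i j) := isConnected_range (continuous_edge i j)

/-- The first kind of vertices. -/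
def vp (i : Fin 3) : Y := Phi ((i, 0), 0)

/-- The second kind of vertices. -/
def vq (j : Fin 3) : Y := Phi ((0, j), 1)

theorem vp_eq (i j : Fin 3) : Phi ((i, j), 0) = vp i := by
  apply Subtype.ext
  simp [vp, Phi, phi, pt]

theorem vq_eq (i j : Fin 3) : Phi ((i, j), 1) = vq j := by
  apply Subtype.ext
  simp [vq, Phi, phi, pt]

theorem vp_mem (i j : Fin 3) : vp i ∈ E i j := ⟨0, vp_eq i j⟩

theorem vq_mem (i j : Fin 3) : vq j ∈ E i j := ⟨1, vq_eq i j⟩

theorem iUnion_E (y : Y) : ∃ i j, y ∈ E i j := by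
  obtain ⟨⟨⟨i, j⟩, t⟩, rfl⟩ := surjective_Phi y
  exact ⟨i, j, t, rfl⟩

instance : ConnectedSpace Y := by
  have : Nonempty Y := ⟨vp 0⟩
  have : PreconnectedSpace Y := by
    refine ⟨isPreconnected_of_forall (vp 0) fun y _ => ?_⟩
    obtain ⟨i, j, hy⟩ := iUnion_E y
    refine ⟨E 0 j ∪ E i j, Set.subset_univ _, Or.inl (vp_mem 0 j), Or.inr hy, ?_⟩
    exact IsPreconnected.union (vq j) (vq_mem 0 j) (vq_mem i j) (E_connected 0 j).isPreconnected
      (E_connected i j).isPreconnected
  constructor
  infer_instance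

instance : Nontrivial Y := by
  refine ⟨vp 0, vq 0, fun h => ?_⟩
  have := congrArg (fun y : Y => y.1.2 0) h
  simp [vp, vq, Phi, phi, pt] at this

theorem E_disjoint {i j k l : Fin 3} (hik : i ≠ k) (hjl : j ≠ l) : Disjoint (E i j) (E k l) := by
  rw [Set.disjoint_left]
  rintro _ ⟨t, rfl⟩ ⟨s, hs⟩
  have h1 := congrArg (fun y : Y => y.1.1 k) hs
  have h2 := congrArg (fun y : Y => y.1.2 l) hs
  simp [Phi, phi, pt, hik.symm, hjl.symm] at h1 h2
  rw [h2] at h1
  simp at h1

/-- Every nondegenerate connected subset of the graph has nonempty interior. -/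
theorem exists_open_subset (L : Set Y) (hL : IsPreconnected L) (hL2 : L.Nontrivial) :
    ∃ U : Set Y, IsOpen U ∧ U.Nonempty ∧ U ⊆ L := by
  -- a point of `L` in the interior of an edge
  have hex : ∃ c ∈ L, ∃ i j t, 0 < t ∧ t < 1 ∧ c.1 = pt i j t := by
    by_contra hcon
    push Not at hcon
    have hsub : L ⊆ Set.range vp ∪ Set.range vq := by
      intro c hc
      obtain ⟨⟨⟨i, j⟩, t⟩, rfl⟩ := surjective_Phi c
      rcases eq_or_lt_of_le t.2.1 with h0 | h0
      · left
        refine ⟨i, ?_⟩
        rw [← vp_eq i j]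
        congr
        apply Subtype.ext
        exact h0
      · rcases eq_or_lt_of_le t.2.2 with h1 | h1
        · right
          refine ⟨j, ?_⟩
          rw [← vq_eq i j]
          congr
          apply Subtype.ext
          exact h1.symm
        · exact absurd rfl (hcon _ hc i j t h0 h1)
    have hfin : (Set.range vp ∪ Set.range vq).Finite :=
      (Set.finite_range vp).union (Set.finite_range vq)
    have htd := (hfin.subset hsub).countable.isTotallyDisconnected
    exact Set.not_subsingleton_iff.mpr hL2 (htd L subset_rfl hL)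
  obtain ⟨c, hc, i, j, t0, ht0, ht1, hct⟩ := hex
  obtain ⟨c', hc', hne⟩ := hL2.exists_ne c
  -- the open arcs
  let U : ℝ → ℝ → Set Y := fun a b =>
    {y | a < y.1.2 j ∧ y.1.2 j < b ∧ 1 - b < y.1.1 i ∧ y.1.1 i < 1 - a}
  have hUopen : ∀ a b, IsOpen (U a b) := by
    intro a b
    have c1 : Continuous fun y : Y => y.1.2 j := by fun_prop
    have c2 : Continuous fun y : Y => y.1.1 i := by fun_prop
    exact (isOpen_lt continuous_const c1).inter ((isOpen_lt c1 continuous_const).inter
      ((isOpen_lt continuous_const c2).inter (isOpen_lt c2 continuous_const)))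
  -- points of the closed arcs
  have hpt : ∀ (y : Y) (a b : ℝ), 0 < a → b < 1 → a ≤ y.1.2 j → y.1.2 j ≤ b → 1 - b ≤ y.1.1 i →
      y.1.1 i ≤ 1 - a → y.1 = pt i j (y.1.2 j) := by
    intro y a b ha hb h1 h2 h3 h4
    obtain ⟨i', j', t, h0t, h1t, hy⟩ := exists_pt y
    have hj : j' = j := by
      by_contra hjj
      rw [hy] at h1
      simp only [pt] at h1
      rw [Pi.single_eq_of_ne (Ne.symm hjj)] at h1
      linarith
    have hi : i' = i := by
      by_contra hii
      rw [hy] at h3
      simp only [pt] at h3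
      rw [Pi.single_eq_of_ne (Ne.symm hii)] at h3
      linarith
    subst hj
    subst hi
    rw [hy]
    simp [pt]
  have hc2 : c.1.2 j = t0 := by rw [hct]; simp [pt]
  have hc1 : c.1.1 i = 1 - t0 := by rw [hct]; simp [pt]
  -- the other point is at a positive distance
  obtain ⟨d, hd, hd'⟩ : ∃ d > 0, ∀ a b, t0 - d ≤ a → b ≤ t0 + d → c' ∉ U a b := by
    by_cases h2 : c'.1.2 j = t0
    · have h1 : c'.1.1 i ≠ 1 - t0 := by
        intro h1
        apply hne
        apply Subtype.ext
        rw [hpt c' t0 t0 ht0 ht1 h2.ge h2.le h1.ge h1.le, h2, hct]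
      refine ⟨|c'.1.1 i - (1 - t0)|, abs_pos.mpr (sub_ne_zero.mpr h1), ?_⟩
      rintro a b ha hb ⟨-, -, h3, h4⟩
      rcases abs_cases (c'.1.1 i - (1 - t0)) with ⟨h5, h6⟩ | ⟨h5, h6⟩ <;> rw [h5] at ha hb <;>
        linarith
    · refine ⟨|c'.1.2 j - t0|, abs_pos.mpr (sub_ne_zero.mpr h2), ?_⟩
      rintro a b ha hb ⟨h3, h4, -, -⟩
      rcases abs_cases (c'.1.2 j - t0) with ⟨h5, h6⟩ | ⟨h5, h6⟩ <;> rw [h5] at ha hb <;>
        linarith
  obtain ⟨δ, hδ, hδ1, hδ2, hδ3⟩ : ∃ δ > 0, δ ≤ d ∧ δ ≤ t0 / 2 ∧ δ ≤ (1 - t0) / 2 :=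
    ⟨min d (min (t0 / 2) ((1 - t0) / 2)), by
      apply lt_min hd (lt_min (by linarith) (by linarith)), min_le_left _ _,
      (min_le_right _ _).trans (min_le_left _ _), (min_le_right _ _).trans (min_le_right _ _)⟩
  -- one of the two one-sided arcs is contained in `L`
  have hor : (∀ (y : Y) (t : ℝ), t0 < t → t < t0 + δ → y.1 = pt i j t → y ∈ L) ∨
      (∀ (y : Y) (t : ℝ), t0 - δ < t → t < t0 → y.1 = pt i j t → y ∈ L) := by
    by_contra hcon
    push Not at hcon
    obtain ⟨⟨y, b, hb1, hb2, hyb, hyL⟩, ⟨z, a, ha1, ha2, hza, hzL⟩⟩ := hcon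
    let V : Set Y := {y | y.1.2 j < a ∨ b < y.1.2 j ∨ y.1.1 i < 1 - b ∨ 1 - a < y.1.1 i}
    have hVopen : IsOpen V := by
      have c1 : Continuous fun y : Y => y.1.2 j := by fun_prop
      have c2 : Continuous fun y : Y => y.1.1 i := by fun_prop
      exact (isOpen_lt c1 continuous_const).union ((isOpen_lt continuous_const c1).union
        ((isOpen_lt c2 continuous_const).union (isOpen_lt continuous_const c2)))
    have hcover : L ⊆ U a b ∪ V := by
      intro w hw
      by_contra hcon2
      simp only [Set.mem_union, not_or] at hcon2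
      obtain ⟨hU, hV⟩ := hcon2
      simp only [V, Set.mem_ofPred_eq, not_or, not_lt] at hV
      obtain ⟨v1, v2, v3, v4⟩ := hV
      have hw' := hpt w a b (by linarith) (by linarith) v1 v2 v3 v4
      have hw1 : w.1.1 i = 1 - w.1.2 j := by
        conv_lhs => rw [hw']
        simp [pt]
      rcases eq_or_lt_of_le v1 with e1 | e1
      · apply hzL
        have : w = z := by
          apply Subtype.ext
          rw [hw', hza, ← e1]
        rwa [← this]
      · rcases eq_or_lt_of_le v2 with e2 | e2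
        · apply hyL
          have : w = y := by
            apply Subtype.ext
            rw [hw', hyb, e2]
          rwa [← this]
        · exact hU ⟨e1, e2, by rw [hw1]; linarith, by rw [hw1]; linarith⟩
    have hcU : c ∈ U a b := ⟨by rw [hc2]; linarith, by rw [hc2]; linarith, by rw [hc1]; linarith,
      by rw [hc1]; linarith⟩
    have hc'V : c' ∈ V := (hcover hc').resolve_left (hd' a b (by linarith) (by linarith))
    obtain ⟨w, -, ⟨u1, u2, u3, u4⟩, hwV⟩ := hL _ _ (hUopen a b) hVopen hcover ⟨c, hc, hcU⟩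
      ⟨c', hc', hc'V⟩
    rcases hwV with h | h | h | h <;> linarith
  -- conclude
  have key : ∀ a b, 0 < a → a < b → b < 1 →
      (∀ (y : Y) (t : ℝ), a < t → t < b → y.1 = pt i j t → y ∈ L) →
      ∃ U : Set Y, IsOpen U ∧ U.Nonempty ∧ U ⊆ L := by
    intro a b ha hab hb h
    refine ⟨U a b, hUopen a b, ⟨⟨pt i j ((a + b) / 2), pt_mem i j _ (by linarith) (by linarith)⟩,
      ?_⟩, ?_⟩
    · refine ⟨?_, ?_, ?_, ?_⟩ <;> simp [pt] <;> linarith
    · rintro w ⟨u1, u2, u3, u4⟩
      exact h w _ u1 u2 (hpt w a b ha hb u1.le u2.le u3.le u4.le)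
  rcases hor with h | h
  · exact key t0 (t0 + δ) ht0 (by linarith) (by linarith) h
  · exact key (t0 - δ) t0 (by linarith) (by linarith) ht1 h

end Pool.Agent.H60.K33
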