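import Mathlib
import Pool.Agent.H60.K33Space

set_option autoImplicit false

/-!
No compact subset of the plane has a continuous map with connected fibres onto the graph `K₃,₃`,
nor onto a Hausdorff space which contains a copy of it.
-/

namespace Pool.Agent.H60.K33Map

open Pool.Agent.H60.K33

/-- The `ε`-neighbourhood of a connected set in a normed space is connected. -/
theorem isConnected_thickening {E : Type*} [NormedAddCommGroup E] [NormedSpace ℝ E] {K : Set E}
    (hK : IsConnected K) {ε : ℝ} (hε : 0 < ε) : IsConnected (Metric.thickening ε K) := by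
  have h : Metric.thickening ε K = (fun x : E × E => x.1 + x.2) '' (K ×ˢ Metric.ball 0 ε) := by
    ext x
    simp only [Metric.mem_thickening_iff, Set.mem_image, Set.mem_prod, Prod.exists, Metric.mem_ball,
      dist_zero_right]
    constructor
    · rintro ⟨z, hz, hxz⟩
      exact ⟨z, x - z, ⟨hz, by rwa [← dist_eq_norm]⟩, by abel⟩
    · rintro ⟨a, b, ⟨ha, hb⟩, rfl⟩
      exact ⟨a, ha, by simpa [dist_eq_norm] using hb⟩
  rw [h]
  exact (hK.prod (Metric.isConnected_ball hε)).image _ (by fun_prop)

/-- The plane as the complex plane. -/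
noncomputable def toC (x : EuclideanSpace ℝ (Fin 2)) : ℂ := ⟨x 0, x 1⟩

theorem continuous_toC : Continuous toC := by
  have h : toC = fun x => ((x 0 : ℝ) : ℂ) + ((x 1 : ℝ) : ℂ) * Complex.I := by
    funext x
    apply Complex.ext <;> simp [toC]
  rw [h]
  fun_prop

theorem injective_toC : Function.Injective toC := by
  intro x y h
  have h0 := congrArg Complex.re h
  have h1 := congrArg Complex.im h
  simp only [toC] at h0 h1
  ext i
  fin_cases i
  · exact h0
  · exact h1

/-- No plane continuum admits a continuous surjection with connected fibres onto `K₃,₃`. -/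
theorem no_monotone_map (S : Set (EuclideanSpace ℝ (Fin 2))) (f : ↥S → Y) (hS : IsCompact S)
    (hf : Continuous f) (hsurj : Function.Surjective f)
    (hfib : ∀ y : Y, IsConnected (Subtype.val '' (f ⁻¹' {y}))) : False := by
  have : CompactSpace S := isCompact_iff_compactSpace.mp hS
  have hfib' : ∀ y : Y, IsConnected (f ⁻¹' {y}) := by
    intro y
    have h := hfib y
    refine ⟨?_, ?_⟩
    · obtain ⟨_, ⟨x, hx, -⟩⟩ := h.nonempty
      exact ⟨x, hx⟩
    · exact (Topology.IsEmbedding.subtypeVal.isInducing.isPreconnected_image).mp h.isPreconnected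
  have hcl : IsClosedMap f := hf.isClosedMap
  have hq : Topology.IsQuotientMap f := hcl.isQuotientMap hf hsurj
  -- preimages of the closed edges
  let K : Fin 3 → Fin 3 → Set (EuclideanSpace ℝ (Fin 2)) := fun i j =>
    Subtype.val '' (f ⁻¹' (E i j))
  have hKconn : ∀ i j, IsConnected (K i j) := by
    intro i j
    have h := hq.isCoinducing.isConnected_preimage_of_isClosed hfib' (E_closed i j)
      (E_connected i j)
    exact h.image _ continuous_subtype_val.continuousOn
  have hKcomp : ∀ i j, IsCompact (K i j) := by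
    intro i j
    exact (((E_closed i j).preimage hf).isCompact).image continuous_subtype_val
  have hKdisj : ∀ i j k l, i ≠ k → j ≠ l → Disjoint (K i j) (K k l) := by
    intro i j k l hik hjl
    have h := (E_disjoint hik hjl).preimage f
    exact Set.disjoint_image_of_injective Subtype.val_injective h
  -- a common thickness
  have hε : ∀ x : (Fin 3 × Fin 3) × (Fin 3 × Fin 3), ∃ δ > 0, x.1.1 ≠ x.2.1 → x.1.2 ≠ x.2.2 →
      Disjoint (Metric.thickening δ (K x.1.1 x.1.2)) (Metric.thickening δ (K x.2.1 x.2.2)) := by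
    intro x
    by_cases h1 : x.1.1 ≠ x.2.1
    · by_cases h2 : x.1.2 ≠ x.2.2
      · obtain ⟨δ, hδ, hd⟩ := (hKdisj _ _ _ _ h1 h2).exists_thickenings (hKcomp _ _)
          (hKcomp _ _).isClosed
        exact ⟨δ, hδ, fun _ _ => hd⟩
      · exact ⟨1, one_pos, fun _ h => absurd h h2⟩
    · exact ⟨1, one_pos, fun h _ => absurd h h1⟩
  choose δ hδ hδd using hε
  obtain ⟨ε, hε, hεδ⟩ : ∃ ε > 0, ∀ x, ε ≤ δ x := by
    refine ⟨Finset.univ.inf' Finset.univ_nonempty δ, ?_, fun x => Finset.inf'_le _ (by simp)⟩
    simpa [Finset.lt_inf'_iff] using hδ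
  have hTdisj : ∀ i j k l, i ≠ k → j ≠ l →
      Disjoint (Metric.thickening ε (K i j)) (Metric.thickening ε (K k l)) := by
    intro i j k l hik hjl
    exact (hδd ((i, j), (k, l)) hik hjl).mono (Metric.thickening_mono (hεδ _) _)
      (Metric.thickening_mono (hεδ _) _)
  -- vertices
  have hP : ∀ i, ∃ x : EuclideanSpace ℝ (Fin 2), ∀ j, x ∈ K i j := by
    intro i
    obtain ⟨x, hx⟩ := hsurj (vp i)
    exact ⟨x.1, fun j => ⟨x, by rw [Set.mem_preimage, hx]; exact vp_mem i j, rfl⟩⟩
  have hQ : ∀ j, ∃ x : EuclideanSpace ℝ (Fin 2), ∀ i, x ∈ K i j := by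
    intro j
    obtain ⟨x, hx⟩ := hsurj (vq j)
    exact ⟨x.1, fun i => ⟨x, by rw [Set.mem_preimage, hx]; exact vq_mem i j, rfl⟩⟩
  choose P hP using hP
  choose Q hQ using hQ
  -- paths
  have hpath : ∀ i j, JoinedIn (Metric.thickening ε (K i j)) (P i) (Q j) := by
    intro i j
    have h := (Metric.isOpen_thickening.isConnected_iff_isPathConnected).mp
      (isConnected_thickening (hKconn i j) hε)
    exact h.joinedIn _ (Metric.self_subset_thickening hε _ (hP i j)) _
      (Metric.self_subset_thickening hε _ (hQ j i))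
  let γ : ∀ i j, Path (P i) (Q j) := fun i j => (hpath i j).somePath
  have hγmem : ∀ i j t, (γ i j).extend t ∈ Metric.thickening ε (K i j) := by
    intro i j t
    exact (hpath i j).somePath_mem _
  refine nonplanar (fun i => toC (P i)) (fun j => toC (Q j)) (fun i j t => toC ((γ i j).extend t))
    (fun i j => continuous_toC.comp (γ i j).continuous_extend) (fun i j => by simp)
    (fun i j => by simp) ?_
  intro i j k l hik hjl s t heq
  exact Set.disjoint_left.mp (hTdisj i j k l hik hjl) (hγmem i j s)
    (by rw [injective_toC heq]; exact hγmem k l t)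


/-- No map with connected fibres from a compact plane set covers a copy of `K₃,₃` in a Hausdorff
space. -/
theorem no_monotone_map_embedding {Z : Type*} [TopologicalSpace Z] [T2Space Z] (e : Y → Z)
    (he : Topology.IsEmbedding e) (S : Set (EuclideanSpace ℝ (Fin 2))) (hS : IsCompact S)
    (f : ↥S → Z) (hf : Continuous f) (hsurj : Set.range e ⊆ Set.range f) :
    ∃ y : Y, ¬ IsConnected (f ⁻¹' {e y}) := by
  classical
  by_contra hcon
  push Not at hcon
  have : CompactSpace S := isCompact_iff_compactSpace.mp hS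
  -- the part of `S` over the copy
  let T : Set ↥S := f ⁻¹' (Set.range e)
  have hTcl : IsClosed T := (isCompact_range he.continuous).isClosed.preimage hf
  let S' : Set (EuclideanSpace ℝ (Fin 2)) := Subtype.val '' T
  have hS' : IsCompact S' := hTcl.isCompact.image continuous_subtype_val
  have hmem : ∀ x : ↥S', ∃ (h : x.1 ∈ S) (y : Y), e y = f ⟨x.1, h⟩ := by
    rintro ⟨_, x, ⟨y, hy⟩, rfl⟩
    exact ⟨x.2, y, hy⟩
  choose h g hg using hmem
  have hgc : Continuous g := by
    rw [he.continuous_iff]
    have : e ∘ g = fun x : ↥S' => f ⟨x.1, h x⟩ := funext hg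
    rw [this]
    exact hf.comp (by fun_prop)
  have hfibeq : ∀ y : Y, Subtype.val '' (g ⁻¹' {y}) = Subtype.val '' (f ⁻¹' {e y}) := by
    intro y
    ext x
    constructor
    · rintro ⟨z, hz, rfl⟩
      refine ⟨⟨z.1, h z⟩, ?_, rfl⟩
      rw [Set.mem_preimage, Set.mem_singleton_iff] at hz ⊢
      rw [← hg z, hz]
    · rintro ⟨z, hz, rfl⟩
      rw [Set.mem_preimage, Set.mem_singleton_iff] at hz
      have hzS' : z.1 ∈ S' := ⟨z, ⟨y, hz.symm⟩, rfl⟩
      refine ⟨⟨z.1, hzS'⟩, ?_, rfl⟩
      rw [Set.mem_preimage, Set.mem_singleton_iff]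
      apply he.injective
      rw [hg ⟨z.1, hzS'⟩, ← hz]
  have hgs : Function.Surjective g := by
    intro y
    obtain ⟨z, hz⟩ := hsurj ⟨y, rfl⟩
    have h2 : z.1 ∈ Subtype.val '' (g ⁻¹' {y}) := by
      rw [hfibeq]
      exact ⟨z, hz, rfl⟩
    obtain ⟨w, hw, -⟩ := h2
    exact ⟨w, hw⟩
  refine no_monotone_map S' g hS' hgc hgs fun y => ?_
  rw [hfibeq]
  exact (hcon y).image _ continuous_subtype_val.continuousOn

end Pool.Agent.H60.K33Map
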